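import Pool.Agent.H.MP_ed6c6b_an.A

set_option autoImplicit false

namespace Pool.Agent.H.MP_ffb813_an

open Filter Topology Metric Set Real Complex Pool.Agent.H.MP_ed6c6b_an

noncomputable def co (f : ℂ → ℂ) (n : ℕ) : ℂ := iteratedDeriv n f 0 / (n.factorial : ℂ)

variable {r : ℝ} {f g : ℂ → ℂ}

lemma co_int (h0 : 0 < r) (h1 : r < 1) (hf : DifferentiableOn ℂ f (ball 0 1)) (n : ℕ) :
    ∮ z in C(0, r), f z / z ^ (n + 1) = 2 * π * I * co f n := by
  have := (hf.mono (closedBall_subset_ball h1)).circleIntegral_one_div_sub_center_pow_smul h0 n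
  simp only [sub_zero, smul_eq_mul, one_div_mul_eq_div] at this
  rw [this, co]
  ring

lemma co_four (h0 : 0 < r) (h1 : r < 1) (hf : DifferentiableOn ℂ f (ball 0 1)) (n : ℕ) :
    fourierCoeffOn two_pi_pos (fun t => f (circleMap 0 r t)) n = co f n * r ^ n := by
  have h := co_int h0 h1 hf n
  have hr : (r : ℂ) ≠ 0 := by exact_mod_cast h0.ne'
  have hp : (π : ℂ) ≠ 0 := by exact_mod_cast pi_ne_zero
  rw [circleIntegral] at h
  rw [fourierCoeffOn_eq_integral, intervalIntegral.integral_congr (g := fun t =>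
    (r ^ n / I : ℂ) * (deriv (circleMap 0 r) t • (f (circleMap 0 r t) / circleMap 0 r t ^ (n + 1))))
    fun t _ => ?_, intervalIntegral.integral_const_mul, h]
  · simp only [real_smul]
    push_cast
    field_simp
    ring
  · beta_reduce
    rw [fourier_coe_apply, deriv_circleMap, circleMap, zero_add, smul_eq_mul, smul_eq_mul,
      show (2 * π * I * ((-(n : ℤ) : ℤ) : ℂ) * t / ((2 * π - 0 : ℝ) : ℂ)) = -(n * (t * I)) by
        push_cast; field_simp; ring, Complex.exp_neg, Complex.exp_nat_mul, mul_pow]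
    have := Complex.exp_ne_zero (t * I)
    field_simp
    ring

lemma bes (h0 : 0 < r) (h1 : r < 1) (hf : DifferentiableOn ℂ f (ball 0 1)) (N : ℕ) :
    ∑ n ∈ Finset.range N, ‖co f n‖ ^ 2 * r ^ (2 * n) ≤
      (2 * π)⁻¹ * ∫ t in (0 : ℝ)..2 * π, ‖f (circleMap 0 r t)‖ ^ 2 := by
  have hc : Continuous fun t => f (circleMap 0 r t) :=
    hf.continuousOn.comp_continuous (continuous_circleMap 0 r) fun t => by
      simpa [abs_of_pos h0] using h1
  have h := hasSum_sq_fourierCoeffOn two_pi_pos (f := fun t => f (circleMap 0 r t))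
    ((MeasureTheory.memLp_two_iff_integrable_sq_norm hc.aestronglyMeasurable).2
      (hc.norm.pow 2).integrableOn_Ioc)
  rw [sub_zero, smul_eq_mul] at h
  refine le_trans (le_of_eq ?_) (sum_le_hasSum ((Finset.range N).map Nat.castEmbedding)
    (fun _ _ => sq_nonneg _) h)
  rw [Finset.sum_map]
  refine Finset.sum_congr rfl fun n _ => ?_
  rw [Nat.castEmbedding_apply, co_four h0 h1 hf, norm_mul, norm_pow, norm_real, norm_eq_abs,
    abs_of_pos h0, mul_pow, ← pow_mul, mul_comm n]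

lemma sq_sum (hf : DifferentiableOn ℂ f (ball 0 1)) {M : ℝ}
    (h : ∀ r, 1 / 2 < r → r < 1 → ∫ t in (0 : ℝ)..2 * π, ‖f (circleMap 0 r t)‖ ^ 2 ≤ M) :
    Summable fun n => ‖co f n‖ ^ 2 := by
  refine summable_of_sum_range_le (c := (2 * π)⁻¹ * M) (fun _ => sq_nonneg _) fun N => ?_
  have h1 : Tendsto (fun r : ℝ => ∑ n ∈ Finset.range N, ‖co f n‖ ^ 2 * r ^ (2 * n)) (𝓝[<] 1)
      (𝓝 (∑ n ∈ Finset.range N, ‖co f n‖ ^ 2 * 1 ^ (2 * n))) :=
    (Continuous.tendsto (by fun_prop) 1).mono_left nhdsWithin_le_nhds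
  simp only [one_pow, mul_one] at h1
  refine le_of_tendsto h1 ?_
  filter_upwards [Ioo_mem_nhdsLT (show (1 / 2 : ℝ) < 1 by norm_num)] with r hr
  exact (bes (by linarith [hr.1]) hr.2 hf N).trans
    (mul_le_mul_of_nonneg_left (h r hr.1 hr.2) (by positivity))

lemma co_mul (hf : DifferentiableOn ℂ f (ball 0 1)) (hg : DifferentiableOn ℂ g (ball 0 1))
    (n : ℕ) : co (f * g) n = ∑ i ∈ Finset.range (n + 1), co f i * co g (n - i) := by
  have hb := ball_mem_nhds (0 : ℂ) zero_lt_one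
  rw [co, iteratedDeriv_mul (hf.analyticAt hb).contDiffAt (hg.analyticAt hb).contDiffAt,
    Finset.sum_div]
  refine Finset.sum_congr rfl fun i hi => ?_
  have h := Nat.choose_mul_factorial_mul_factorial (Nat.lt_succ_iff.1 (Finset.mem_range.1 hi))
  have h1 : (i.factorial : ℂ) ≠ 0 := by exact_mod_cast i.factorial_ne_zero
  have h2 : ((n - i).factorial : ℂ) ≠ 0 := by exact_mod_cast (n - i).factorial_ne_zero
  have h3 : (n.choose i : ℂ) ≠ 0 := by
    exact_mod_cast (Nat.choose_pos (Nat.lt_succ_iff.1 (Finset.mem_range.1 hi))).ne'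
  rw [co, co, ← h]
  push_cast
  field_simp

lemma conv {x y : ℕ → ℝ} (hx : Summable fun n => x n ^ 2) (hy : Summable fun n => y n ^ 2)
    (x0 : ∀ n, 0 ≤ x n) (y0 : ∀ n, 0 ≤ y n) :
    Tendsto (fun n => ∑ i ∈ Finset.range (n + 1), x i * y (n - i)) atTop (𝓝 0) := by
  have y1 : Tendsto y atTop (𝓝 0) := by
    have := hy.tendsto_atTop_zero.sqrt
    simpa only [Real.sqrt_sq (y0 _), Real.sqrt_zero] using this
  have Y0 : 0 ≤ ∑' n, y n ^ 2 := tsum_nonneg fun _ => sq_nonneg _
  refine tendsto_order.2 ⟨fun a ha => .of_forall fun n => ha.trans_le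
    (Finset.sum_nonneg fun i _ => mul_nonneg (x0 _) (y0 _)), fun ε hε => ?_⟩
  obtain ⟨δ, d0, d1⟩ : ∃ δ > 0, δ * ∑' n, y n ^ 2 < ε / 2 :=
    ⟨ε / 2 / (∑' n, y n ^ 2 + 1), by positivity, by
      rw [div_mul_eq_mul_div, div_lt_iff₀ (by positivity)]
      nlinarith⟩
  have b : ∀ n k, ‖min (x k * y (n - k)) (x k ^ 2 / δ)‖ ≤ x k ^ 2 / δ := fun n k => by
    rw [Real.norm_of_nonneg (le_min (mul_nonneg (x0 _) (y0 _)) (by positivity))]
    exact min_le_right _ _
  have t := tendsto_tsum_of_dominated_convergence (𝓕 := atTop) (g := fun _ => (0 : ℝ))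
    (f := fun n k => min (x k * y (n - k)) (x k ^ 2 / δ)) (hx.div_const δ) (fun k => by
      have := ((y1.comp (tendsto_sub_atTop_nat k)).const_mul (x k)).min
        (tendsto_const_nhds (x := x k ^ 2 / δ))
      rwa [mul_zero, min_eq_left (by positivity)] at this) (.of_forall b)
  rw [tsum_zero] at t
  filter_upwards [t.eventually (gt_mem_nhds (half_pos hε))] with n hn
  have s1 := ((hx.div_const δ).of_norm_bounded (b n)).sum_le_tsum (Finset.range (n + 1))
    fun k _ => le_min (mul_nonneg (x0 _) (y0 _)) (by positivity)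
  have s2 := hy.sum_le_tsum (Finset.range (n + 1)) fun _ _ => sq_nonneg _
  rw [← Finset.sum_range_reflect] at s2
  have s3 : ∑ i ∈ Finset.range (n + 1), x i * y (n - i) ≤ ∑ i ∈ Finset.range (n + 1),
      (δ * y (n + 1 - 1 - i) ^ 2 + min (x i * y (n - i)) (x i ^ 2 / δ)) :=
    Finset.sum_le_sum fun i _ => by
      rw [Nat.add_sub_cancel, ← sub_le_iff_le_add', le_min_iff, le_div_iff₀ d0]
      exact ⟨sub_le_self _ (by positivity), by
        nlinarith [sq_nonneg (x i - δ * y (n - i)), mul_nonneg d0.le (mul_nonneg (x0 i) (y0 (n - i)))]⟩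
  rw [Finset.sum_add_distrib, ← Finset.mul_sum] at s3
  nlinarith [mul_le_mul_of_nonneg_left s2 d0.le]

lemma rl (hf : DifferentiableOn ℂ f (ball 0 1)) (hg : DifferentiableOn ℂ g (ball 0 1)) {M : ℝ}
    (h1 : ∀ r, 1 / 2 < r → r < 1 → ∫ t in (0 : ℝ)..2 * π, ‖f (circleMap 0 r t)‖ ^ 2 ≤ M)
    (h2 : ∀ r, 1 / 2 < r → r < 1 → ∫ t in (0 : ℝ)..2 * π, ‖g (circleMap 0 r t)‖ ^ 2 ≤ M) :
    Tendsto (co (f * g)) atTop (𝓝 0) := by
  refine squeeze_zero_norm (fun n => ?_) (conv (sq_sum hf h1) (sq_sum hg h2)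
    (fun _ => norm_nonneg _) fun _ => norm_nonneg _)
  rw [co_mul hf hg]
  exact (norm_sum_le _ _).trans_eq (Finset.sum_congr rfl fun _ _ => norm_mul _ _)

variable {h p : ℂ → ℂ}

lemma lag (h0 : 0 < r) (h1 : r < 1) (hd : DifferentiableOn ℂ h (ball 0 1))
    (hm : MapsTo h (ball 0 1) (ball 0 1)) (hz : h 0 = 0) (hn : ∀ w, ‖w‖ = r → h w ≠ 0)
    (hp : DifferentiableOn ℂ p (ball 0 1)) (p0 : p 0 = 1)
    (he : ∀ w, ‖w‖ = r → w * deriv h w = h w * p w) (b : ℕ)
    (hf : DifferentiableOn ℂ f (ball 0 1)) :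
    ∮ w in C(0, r), f (h w) * deriv h w / h w ^ (b + 1) = 2 * π * I * co f b := by
  have s1 : ∀ w ∈ sphere (0 : ℂ) r, w ∈ ball (0 : ℂ) 1 := fun w hw =>
    sphere_subset_closedBall.trans (closedBall_subset_ball h1) hw
  induction b generalizing f with
  | zero =>
    have := co_int h0 h1 ((hf.comp hd hm).mul hp) 0
    rw [circleIntegral.integral_congr h0.le (g := fun z => (f ∘ h * p) z / z ^ (0 + 1))
      fun w hw => ?_, this]
    · simp [co, hz, p0]
    · have hw' : ‖w‖ = r := by simpa using hw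
      have w0 : w ≠ 0 := norm_pos_iff.1 (hw' ▸ h0)
      have := hn w hw'
      simp only [zero_add, pow_one, Pi.mul_apply, Function.comp_apply]
      field_simp
      linear_combination f (h w) * he w hw'
  | succ b ih =>
    have hf' := hf.deriv isOpen_ball
    have i1 := ih hf'
    have c : ∀ {u : ℂ → ℂ} (m : ℕ), DifferentiableOn ℂ u (ball 0 1) → CircleIntegrable
        (fun w => u (h w) * deriv h w / h w ^ m) 0 r := fun m hu =>
      ((((hu.comp hd hm).mul (hd.deriv isOpen_ball)).continuousOn.mono s1).div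
        ((hd.continuousOn.mono s1).pow m) fun w hw =>
          pow_ne_zero _ (hn w (by simpa using hw))).circleIntegrable h0.le
    have i2 := circleIntegral.integral_eq_zero_of_hasDerivWithinAt h0.le (c := 0)
      (f := fun w => f (h w) / h w ^ (b + 1)) (f' := fun w => deriv f (h w) * deriv h w /
        h w ^ (b + 1) - (b + 1 : ℂ) • (f (h w) * deriv h w / h w ^ (b + 1 + 1))) fun w hw => by
      have d1 := (hd.differentiableAt (isOpen_ball.mem_nhds (s1 w hw))).hasDerivAt
      have d2 := (hf.differentiableAt (isOpen_ball.mem_nhds (hm (s1 w hw)))).hasDerivAt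
      have n0 := hn w (by simpa using hw)
      refine (((d2.comp w d1).div (d1.pow (b + 1)) (pow_ne_zero _ n0)).congr_deriv
        ?_).hasDerivWithinAt
      simp only [Function.comp_apply, Pi.pow_apply, Nat.add_sub_cancel, smul_eq_mul]
      push_cast
      field_simp
      ring
    rw [circleIntegral.integral_sub (c _ hf') (c _ hf).const_fun_smul,
      circleIntegral.integral_smul, i1, sub_eq_zero, smul_eq_mul] at i2
    have b0 : (b + 1 : ℂ) ≠ 0 := by exact_mod_cast b.succ_ne_zero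
    have b1 : (b.factorial : ℂ) ≠ 0 := by exact_mod_cast b.factorial_ne_zero
    refine mul_left_cancel₀ b0 ?_
    rw [← i2, co, co, iteratedDeriv_succ', Nat.factorial_succ]
    push_cast
    field_simp

end Pool.Agent.H.MP_ffb813_an
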