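import Pool.Agent.H.MP_ffb813_an.A

set_option autoImplicit false

namespace Pool.Agent.H.MP_ffb813_an

open Filter Topology Metric Set Real Complex Pool.Agent.H.MP_4b0b35_an

variable {φ : ℂ → ℂ} {a y w : ℂ}

lemma strict (hd : DifferentiableOn ℂ φ (ball 0 1)) (hm : ∀ z, ‖z‖ < 1 → ‖φ z‖ < 1)
    (hw : ‖w‖ < 1) (ha : ‖a‖ < 1) (hy : ‖y‖ < 1) (hay : a ≠ y) :
    ‖mb (w * φ a) (w * φ y)‖ < ‖mb a y‖ := by
  have h1 := pick hd hm ha hy
  have h2 : 0 < ‖mb a y‖ := norm_pos_iff.2 (div_ne_zero (sub_ne_zero.2 hay) (den_ne ha hy))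
  have hu := hm a ha
  have hv := hm y hy
  generalize φ a = u at *
  generalize φ y = v at *
  have m : ∀ {u : ℂ}, ‖u‖ < 1 → ‖w * u‖ < 1 := fun hu => by
    rw [norm_mul]
    exact mul_lt_one_of_nonneg_of_lt_one_left (norm_nonneg _) hw hu.le
  have d1 := norm_pos_iff.2 (den_ne hu hv)
  have d2 := norm_pos_iff.2 (den_ne (m hu) (m hv))
  have k : ‖w‖ * ‖1 - starRingEnd ℂ u * v‖ < ‖1 - starRingEnd ℂ (w * u) * (w * v)‖ := by
    refine lt_of_pow_lt_pow_left₀ 2 d2.le ?_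
    have e : ‖1 - starRingEnd ℂ (w * u) * (w * v)‖ ^ 2 - (‖w‖ * ‖1 - starRingEnd ℂ u * v‖) ^ 2 =
        (1 - ‖w‖ ^ 2) * (1 - ‖w * (u * v)‖ ^ 2) := by
      simp only [mul_pow, Complex.sq_norm, normSq_apply, sub_re, sub_im, one_re, one_im, mul_re,
        mul_im, conj_re, conj_im]
      ring
    have : ‖u * v‖ < 1 := by
      rw [norm_mul]
      exact mul_lt_one_of_nonneg_of_lt_one_left (norm_nonneg _) hu hv.le
    linarith [mul_pos (sq1 hw) (sq1 (m this))]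
  rw [mb, norm_div, div_le_iff₀ d1] at h1
  rw [mb, norm_div, div_lt_iff₀ d2, ← mul_sub, norm_mul]
  nlinarith [mul_le_mul_of_nonneg_left h1 (norm_nonneg w), mul_lt_mul_of_pos_left k h2]

lemma fix_ex (hd : DifferentiableOn ℂ φ (ball 0 1)) (hm : ∀ z, ‖z‖ < 1 → ‖φ z‖ < 1)
    (hw : ‖w‖ < 1) : ∃ z, ‖z‖ < 1 ∧ z = w * φ z := by
  have m : ∀ z, ‖z‖ < 1 → ‖w * φ z‖ ≤ ‖w‖ := fun z hz => by
    rw [norm_mul]
    exact mul_le_of_le_one_right (norm_nonneg _) (hm z hz).le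
  have b : ∀ {z : ℂ}, z ∈ closedBall (0 : ℂ) ‖w‖ → ‖z‖ < 1 := fun hz =>
    (mem_closedBall_zero_iff.1 hz).trans_lt hw
  have c := (hd.continuousOn.mono (closedBall_subset_ball hw)).const_mul w
  obtain ⟨z, hz, h⟩ := (isCompact_closedBall (0 : ℂ) ‖w‖).exists_isMinOn
    (f := fun z => ‖mb z (w * φ z)‖) ⟨0, by simp⟩ ((continuousOn_id.sub c).div
      (continuousOn_const.sub (continuous_conj.continuousOn.mul c)) fun z hz =>
        den_ne (b hz) ((m z (b hz)).trans_lt hw)).norm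
  refine ⟨z, b hz, by_contra fun hc => ?_⟩
  exact (strict hd hm hw (b hz) ((m z (b hz)).trans_lt hw) hc).not_ge
    (h (mem_closedBall_zero_iff.2 (m z (b hz))))

lemma fix_un (hd : DifferentiableOn ℂ φ (ball 0 1)) (hm : ∀ z, ‖z‖ < 1 → ‖φ z‖ < 1)
    (hw : ‖w‖ < 1) (ha : ‖a‖ < 1) (hy : ‖y‖ < 1) (h1 : a = w * φ a) (h2 : y = w * φ y) :
    a = y := by_contra fun hc => by
  have := strict hd hm hw ha hy hc
  rw [← h1, ← h2] at this
  exact this.false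

lemma alg {X Y α β s b : ℝ} (h1 : X ^ 2 + Y ^ 2 = (b * s) ^ 2) (s0 : 0 ≤ s) (s1 : s < 1)
    (b0 : 0 ≤ b) (hG : α ^ 2 + β ^ 2 < 1) (h2 : |β| * (1 - s ^ 2) ≤ s * (1 - (α ^ 2 + β ^ 2)))
    (hD : (1 - s ^ 2 * (α ^ 2 + β ^ 2)) * ((1 - X) ^ 2 + Y ^ 2) ≤
      (1 - s ^ 2) * ((1 - (X * α - Y * β)) ^ 2 + (-(Y * α) + -(X * β)) ^ 2)) : 0 ≤ X := by
  refine not_lt.1 fun hX => ?_
  have p1 : 0 < 1 - s ^ 2 := by nlinarith
  have p2 : |Y| ≤ b * s := abs_le_of_sq_le_sq (by nlinarith) (by positivity)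
  have p3 : Y * β ≤ b * s * |β| := (le_abs_self _).trans (by
    rw [abs_mul]
    exact mul_le_mul_of_nonneg_right p2 (abs_nonneg _))
  have p4 := mul_le_mul_of_nonneg_left h2 (mul_nonneg b0 s0)
  have p5 := mul_le_mul_of_nonneg_left p3 p1.le
  have p6 : 0 < -X * ((1 - s ^ 2) * (1 - α)) :=
    mul_pos (by linarith) (mul_pos p1 (by nlinarith))
  have p7 : 0 ≤ -X * (s ^ 2 * (1 - (α ^ 2 + β ^ 2))) :=
    mul_nonneg (by linarith) (mul_nonneg (sq_nonneg _) (by linarith))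
  have p8 : 0 ≤ s ^ 2 * (1 - (α ^ 2 + β ^ 2)) * (1 - b) ^ 2 :=
    mul_nonneg (mul_nonneg (sq_nonneg _) (by linarith)) (sq_nonneg _)
  have e1 : (1 - X) ^ 2 + Y ^ 2 = 1 - 2 * X + (b * s) ^ 2 := by linarith
  have e2 : (1 - (X * α - Y * β)) ^ 2 + (-(Y * α) + -(X * β)) ^ 2 =
      1 - 2 * (X * α - Y * β) + (b * s) ^ 2 * (α ^ 2 + β ^ 2) := by
    rw [← h1]
    ring
  rw [e1, e2] at hD
  nlinarith

lemma im_le {x g : ℂ} {s : ℝ} (hx : ‖x‖ < 1) (hg : ‖g‖ < 1) (x0 : x.im = 0) (h : ‖mb x g‖ ≤ s)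
    (s1 : s < 1) : |g.im| * (1 - s ^ 2) ≤ s * (1 - ‖g‖ ^ 2) := by
  have h1 := ident hx hg
  have h2 := ident hx (mb_lt hx hg)
  have h3 : g * (1 - starRingEnd ℂ x * mb x g) = x - mb x g := by
    nth_rewrite 1 [← mb_mb hx hg]
    exact div_mul_cancel₀ _ (den_ne hx (mb_lt hx hg))
  rw [mb_mb hx hg] at h2
  have d := pow_pos (norm_pos_iff.2 (den_ne hx (mb_lt hx hg))) 2
  have m0 := norm_nonneg (mb x g)
  have m1 := abs_im_le_norm (mb x g)
  generalize mb x g = m at *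
  have h4 : g.im * ‖1 - starRingEnd ℂ x * m‖ ^ 2 = -(1 - ‖x‖ ^ 2) * m.im := by
    have e1 := congrArg re h3
    have e2 := congrArg im h3
    simp only [Complex.sq_norm, normSq_apply, sub_re, sub_im, one_re, one_im, mul_re,
      mul_im, conj_re, conj_im, x0] at e1 e2 ⊢
    linear_combination (1 - x.re * m.re) * e2 + (x.re * m.im) * e1
  have h5 : |g.im| * ‖1 - starRingEnd ℂ x * m‖ ^ 2 = (1 - ‖x‖ ^ 2) * |m.im| := by
    rw [← abs_of_pos d, ← abs_mul, h4, abs_mul, abs_neg, abs_of_pos (sq1 hx)]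
  refine le_of_mul_le_mul_right ?_ d
  rw [mul_right_comm, h5, mul_assoc s, h2, mul_assoc, mul_left_comm s]
  refine mul_le_mul_of_nonneg_left ?_ (sq1 hx).le
  have : 0 ≤ 1 - s ^ 2 := by nlinarith
  nlinarith [mul_le_mul_of_nonneg_right (m1.trans h) this, mul_le_mul h h m0 (m0.trans h)]

lemma mb_der (ha : ‖a‖ < 1) (hy : ‖y‖ < 1) : HasDerivAt (mb a)
    ((starRingEnd ℂ a * a - 1) / (1 - starRingEnd ℂ a * y) ^ 2) y := by
  refine ((((hasDerivAt_id y).const_sub a).div (((hasDerivAt_id y).const_mul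
    (starRingEnd ℂ a)).const_sub 1) (den_ne ha hy))).congr_deriv ?_
  simp only [id]
  ring

lemma key (hd : DifferentiableOn ℂ φ (ball 0 1)) (hm : ∀ z, ‖z‖ < 1 → ‖φ z‖ < 1)
    (ha : ‖a‖ < 1) (hf : φ a = a) (hs : ∀ y, ‖y‖ < 1 → a ≠ y → ‖mb a (φ y)‖ < ‖mb a y‖) :
    ‖deriv φ a‖ < 1 ∧ ((deriv φ a).im = 0 → ∀ y, ‖y‖ < 1 → ‖y‖ ≤ ‖φ y‖ →
      (1 + ‖a‖ ^ 2) * (starRingEnd ℂ a * y).re ≤ ‖a‖ ^ 2 * (1 + ‖y‖ ^ 2)) := by
  obtain ⟨h1, h2, h3⟩ := g_all hd hm ha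
  rw [hf] at h1 h2 h3
  set F := mb a ∘ φ ∘ mb a with hF
  have a0 : mb a 0 = a := by simp [mb]
  have s1 : ∀ x, ‖x‖ < 1 → x ≠ 0 → ‖F x‖ < ‖x‖ := fun x hx x0 => by
    have := hs _ (mb_lt ha hx) fun h => x0 (by rw [← mb_mb ha hx, ← h, mb, sub_self, zero_div])
    rwa [mb_mb ha hx] at this
  have e1 : ∀ x, F x = x * dslope F 0 x := fun x => by
    simpa [h3] using (sub_smul_dslope F 0 x).symm
  have g1 : ∀ x, ‖x‖ < 1 → ‖dslope F 0 x‖ < 1 := fun x hx => by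
    have m : MapsTo F (ball 0 1) (closedBall (F 0) 1) := by
      rw [h3]
      exact h2.mono_right ball_subset_closedBall
    refine lt_of_le_of_ne ((norm_dslope_le_div_of_mapsTo_ball h1 m (by simpa using hx)).trans_eq
      (div_one 1)) fun he => ?_
    have := affine_of_mapsTo_ball_of_norm_dslope_eq_div h1 m (by simpa using hx)
      (he.trans (div_one 1).symm) (show (1 / 2 : ℂ) ∈ ball 0 1 by norm_num)
    have h4 := s1 (1 / 2) (by norm_num) (by norm_num)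
    rw [this] at h4
    simp [h3, he] at h4
  have g0 : dslope F 0 0 = deriv φ a := by
    have d1 := (hd.differentiableAt (isOpen_ball.mem_nhds (by simpa using ha))).hasDerivAt
    have d2 := (mb_der ha ha).comp_of_eq 0 ((d1.comp_of_eq 0 (mb_der ha (y := 0) (by simp))
      a0.symm)) (by simp [a0, hf])
    rw [dslope_same, d2.deriv]
    have := den_ne ha ha
    field_simp
    ring
  refine ⟨g0 ▸ g1 0 (by simp), fun hi y hy hle => ?_⟩
  have hx := mb_lt ha hy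
  have p1 := pick ((differentiableOn_dslope (ball_mem_nhds _ zero_lt_one)).2 h1) g1
    (a := 0) (by simp) hx
  rw [show ‖mb 0 (mb a y)‖ = ‖mb a y‖ by simp [mb]] at p1
  have p2 := im_le (g1 0 (by simp)) (g1 _ hx) (g0 ▸ hi) p1 hx
  have i1 := ident ha hx
  have i2 := ident ha (mb_lt ha (hm y hy))
  have e2 := e1 (mb a y)
  rw [mb_mb ha hy] at i1
  rw [mb_mb ha (hm y hy)] at i2
  simp only [hF, Function.comp_apply, mb_mb ha hy] at e2
  rw [e2] at i2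
  have g2 := g1 _ hx
  have e3 : mb a y * (1 - starRingEnd ℂ a * y) = a - y := div_mul_cancel₀ _ (den_ne ha hy)
  generalize dslope F 0 (mb a y) = g at *
  generalize mb a y = x at *
  have hD : (1 - ‖x * g‖ ^ 2) * ‖1 - starRingEnd ℂ a * x‖ ^ 2 ≤
      (1 - ‖x‖ ^ 2) * ‖1 - starRingEnd ℂ a * (x * g)‖ ^ 2 := by
    refine le_of_mul_le_mul_left ?_ (sq1 ha)
    rw [← mul_assoc, ← mul_assoc, ← i1, ← i2, mul_right_comm _ _ (_ ^ 2)]
    gcongr
  have q := alg (X := (starRingEnd ℂ a * x).re) (Y := (starRingEnd ℂ a * x).im) (α := g.re)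
    (β := g.im) (s := ‖x‖) (b := ‖a‖) (by
      rw [← RCLike.norm_conj a, ← norm_mul, Complex.sq_norm, normSq_apply]
      ring) (norm_nonneg _) hx (norm_nonneg _) (by
        simpa [Complex.sq_norm, normSq_apply, ← sq] using sq1 g2)
    (by simpa [Complex.sq_norm, normSq_apply, ← sq] using p2) (by
      rw [← mul_assoc (starRingEnd ℂ a), norm_mul, mul_pow] at hD
      generalize starRingEnd ℂ a * x = ζ at *
      simpa [Complex.sq_norm g, Complex.sq_norm (1 - _), normSq_apply, ← sq] using hD)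
  have q2 : (starRingEnd ℂ a * x).re * ‖1 - starRingEnd ℂ a * y‖ ^ 2 =
      ‖a‖ ^ 2 * (1 + ‖y‖ ^ 2) - (1 + ‖a‖ ^ 2) * (starRingEnd ℂ a * y).re := by
    have := congrArg (fun u => (starRingEnd ℂ a * u *
      starRingEnd ℂ (1 - starRingEnd ℂ a * y)).re) e3
    simp only [Complex.sq_norm, normSq_apply, sub_re, sub_im, one_re, one_im, mul_re,
      mul_im, conj_re, conj_im] at this ⊢
    linear_combination this
  linarith [mul_nonneg q (sq_nonneg ‖1 - starRingEnd ℂ a * y‖)]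

end Pool.Agent.H.MP_ffb813_an
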