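import Pool.Agent.H.MP_ffb813_an.B

set_option autoImplicit false

namespace Pool.Agent.H.MP_ffb813_an

open Filter Topology Metric Set Real Complex Pool.Agent.H.MP_4b0b35_an Pool.Agent.H.MP_ed6c6b_an

lemma bv {s A v α : ℝ → ℝ} (hs : ∀ t, HasDerivAt s (v t) t) (hA : ∀ t, HasDerivAt A (α t) t)
    (hv : Continuous v) (a0 : ∀ t, 0 < α t) (s0 : ∀ t, 0 ≤ s t) (s1 : ∀ t, s t ≤ 1) (A0 : A 0 = 0)
    (hk : ∀ t₀ t, v t₀ = 0 → A t₀ ≤ A t → s t - s t₀ ≤ A t - A t₀) {T : ℝ} (hT : 0 ≤ T) :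
    ∫ t in (0 : ℝ)..T, max (v t) 0 ≤ A T + 1 := by
  have hc : Continuous fun t => max (v t) 0 := hv.max continuous_const
  have hM : ∀ t, HasDerivAt (fun t => (∫ t in (0 : ℝ)..t, max (v t) 0) - A t)
      (max (v t) 0 - α t) t := fun t => (hc.integral_hasStrictDerivAt 0 t).hasDerivAt.sub (hA t)
  have mA : Monotone A := (strictMono_of_hasDerivAt_pos hA a0).monotone
  obtain ⟨t₁, h1, hm⟩ := (isCompact_Icc (a := 0) (b := T)).exists_isMaxOn ⟨0, le_rfl, hT⟩
    (fun t _ => (hM t).continuousAt.continuousWithinAt)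
  set M := fun t => (∫ t in (0 : ℝ)..t, max (v t) 0) - A t with hMd
  have c1 : ∀ t ∈ Icc 0 T, M t₁ ≤ M t → v t ≤ 0 → M t₁ ≤ 1 := fun t ht h h' => by
    have := (show IsMaxOn M (Icc 0 T) t from fun u hu => (hm hu).trans h).localize
      |>.hasFDerivWithinAt_nonpos (hM t).hasFDerivAt.hasFDerivWithinAt
        (sub_mem_posTangentConeAt_of_segment_subset (y := 0)
          ((convex_Icc 0 T).segment_subset ht ⟨le_rfl, hT⟩))
    simp only [ContinuousLinearMap.toSpanSingleton_apply, max_eq_right h', smul_eq_mul] at this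
    obtain rfl : t = 0 := le_antisymm (by nlinarith [a0 t]) ht.1
    simpa [hMd, A0] using h.trans (by simp [hMd, A0])
  have c2 : ∀ t₀ ≤ t₁, (∀ t ∈ Icc t₀ t₁, 0 ≤ v t) → M t₁ = M t₀ + (s t₁ - s t₀) - (A t₁ - A t₀) :=
    fun t₀ h h' => by
    rw [← intervalIntegral.integral_eq_sub_of_hasDerivAt (fun t _ => hs t)
      (hv.intervalIntegrable _ _), intervalIntegral.integral_congr (g := fun t => max (v t) 0)
      fun t ht => (max_eq_left (h' t (by rwa [uIcc_of_le h] at ht))).symm]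
    simp only [hMd]
    rw [← intervalIntegral.integral_add_adjacent_intervals (hc.intervalIntegrable 0 t₀)
      (hc.intervalIntegrable t₀ t₁)]
    ring
  suffices M t₁ ≤ 1 by linarith [show M T ≤ M t₁ from hm ⟨hT, le_rfl⟩]
  rcases (Icc 0 t₁ ∩ {t | v t ≤ 0}).eq_empty_or_nonempty with he | hn
  · rw [c2 0 h1.1 fun t ht => le_of_not_ge fun h => he.subset ⟨ht, h⟩]
    have := mA h1.1
    simp only [hMd, intervalIntegral.integral_same]
    linarith [s0 0, s1 t₁]
  · obtain ⟨t₀, ⟨h2, h3⟩, h4⟩ := (isCompact_Icc.inter_right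
      (isClosed_le hv continuous_const)).exists_isGreatest hn
    rcases h2.2.eq_or_lt with rfl | hlt
    · exact c1 _ h1 le_rfl h3
    have p : ∀ t ∈ Ioc t₀ t₁, 0 ≤ v t := fun t ht =>
      le_of_not_ge fun h => ht.1.not_ge (h4 ⟨⟨h2.1.trans ht.1.le, ht.2⟩, h⟩)
    have p0 : 0 ≤ v t₀ := ge_of_tendsto ((hv.tendsto t₀).mono_left nhdsWithin_le_nhds)
      (mem_of_superset (Ioc_mem_nhdsGT hlt) p)
    refine c1 t₀ ⟨h2.1, h2.2.trans h1.2⟩ ?_ h3
    rw [c2 t₀ h2.2 fun t ht => ht.1.eq_or_lt.elim (fun h => h ▸ p0) fun h => p t ⟨h, ht.2⟩]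
    linarith [hk t₀ t₁ (le_antisymm h3 p0) (mA h2.2)]

lemma klein {b s d : ℝ} (b0 : 0 < b) (b1 : b ≤ 1) (s0 : 0 ≤ s) (s1 : s ≤ 1) (d0 : 0 ≤ d)
    (h : (1 + b ^ 2) * (b * s * Real.cos d) ≤ b ^ 2 * (1 + s ^ 2)) : s - b ≤ d := by
  have h1 : (1 + b ^ 2) * s * Real.cos d ≤ b * (1 + s ^ 2) :=
    le_of_mul_le_mul_left (by nlinarith) b0
  have h2 := mul_le_mul_of_nonneg_left (one_sub_sq_div_two_le_cos (x := d))
    (show 0 ≤ (1 + b ^ 2) * s by positivity)
  have h3 : (1 + b ^ 2) * s ≤ 2 := by nlinarith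
  have h4 := mul_le_mul_of_nonneg_right h3 (sq_nonneg d)
  refine not_lt.1 fun hc => ?_
  have h5 : 0 ≤ (s - b) * ((1 - s) * (1 + b)) :=
    mul_nonneg (by linarith) (mul_nonneg (by linarith) (by linarith))
  nlinarith

variable {φ h : ℂ → ℂ} {w : ℂ}

lemma key' (hd : DifferentiableOn ℂ φ (ball 0 1)) (hm : ∀ z, ‖z‖ < 1 → ‖φ z‖ < 1) (hw : ‖w‖ < 1)
    {a : ℂ} (ha : ‖a‖ < 1) (hf : a = w * φ a) :
    ‖w * deriv φ a‖ < 1 ∧ ((w * deriv φ a).im = 0 → ∀ y, ‖y‖ < 1 → ‖y‖ ≤ ‖w * φ y‖ →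
      (1 + ‖a‖ ^ 2) * (starRingEnd ℂ a * y).re ≤ ‖a‖ ^ 2 * (1 + ‖y‖ ^ 2)) := by
  have := key (φ := fun z => w * φ z) (hd.const_mul w) (fun z hz => by
    rw [norm_mul]
    exact mul_lt_one_of_nonneg_of_lt_one_left (norm_nonneg _) hw (hm z hz).le) ha hf.symm
    fun y hy hay => by simpa only [← hf] using strict hd hm hw ha hy hay
  rwa [deriv_const_mul_field'] at this

noncomputable def pp (φ h : ℂ → ℂ) (w : ℂ) : ℂ := (1 - w * deriv φ (h w))⁻¹

lemma re_pos {x : ℂ} (hx : ‖x‖ < 1) : 0 < (1 - x).re := by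
  rw [sub_re, one_re]
  linarith [re_le_norm x]

section
variable (hd : DifferentiableOn ℂ φ (ball 0 1)) (hm : ∀ z, ‖z‖ < 1 → ‖φ z‖ < 1) (h0 : φ 0 ≠ 0)
  (hf : ∀ w, ‖w‖ < 1 → ‖h w‖ < 1 ∧ h w = w * φ (h w))
include hd hm h0 hf

omit hm in
lemma u_ge : ∃ c > 0, ∀ w, ‖w‖ < 1 → c ≤ ‖φ (h w)‖ := by
  obtain ⟨δ, d0, d1⟩ := Metric.eventually_nhds_iff.1 ((hd.continuousOn.continuousAt
    (ball_mem_nhds _ zero_lt_one)).norm.eventually (lt_mem_nhds (half_lt_self (norm_pos_iff.2 h0))))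
  refine ⟨min δ (‖φ 0‖ / 2), lt_min d0 (half_pos (norm_pos_iff.2 h0)), fun w hw => ?_⟩
  rcases lt_or_ge ‖h w‖ δ with h1 | h1
  · exact (min_le_right _ _).trans (d1 (by simpa using h1)).le
  · refine (min_le_left _ _).trans (h1.trans ?_)
    nth_rewrite 1 [(hf w hw).2, norm_mul]
    exact mul_le_of_le_one_left (norm_nonneg _) hw.le

omit hm in
lemma u_ne (hw : ‖w‖ < 1) : φ (h w) ≠ 0 := by
  obtain ⟨c, c0, hc⟩ := u_ge hd h0 hf
  exact norm_pos_iff.1 (c0.trans_le (hc w hw))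

lemma h_der (hw : ‖w‖ < 1) : HasDerivAt h (φ (h w) * pp φ h w) w := by
  obtain ⟨h1, h2⟩ := hf w hw
  have n0 := u_ne hd h0 hf hw
  have n1 : 1 - w * deriv φ (h w) ≠ 0 := fun h' => by
    simpa [h'] using re_pos (key' hd hm hw h1 h2).1
  have an := hd.analyticAt (isOpen_ball.mem_nhds (show h w ∈ ball 0 1 by simpa using h1))
  have d1 := (hasStrictDerivAt_id (h w)).div an.hasStrictDerivAt n0
  have e : h w / φ (h w) = w := by rw [div_eq_iff n0, ← h2]
  have e2 : (1 * φ (h w) - id (h w) * deriv φ (h w)) / φ (h w) ^ 2 = (φ (h w) * pp φ h w)⁻¹ := by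
    rw [pp, id]
    nth_rewrite 2 [h2]
    field_simp
  rw [e2] at d1
  have := d1.to_local_left_inverse (inv_ne_zero (mul_ne_zero n0 (inv_ne_zero n1))) (g := h) (by
    filter_upwards [d1.hasDerivAt.continuousAt.norm.eventually (gt_mem_nhds (show ‖h w / φ (h w)‖ < 1 by
      rwa [e])), continuous_norm.continuousAt.eventually (gt_mem_nhds h1),
      an.continuousAt.eventually_ne n0] with z z1 z2 z3
    exact fix_un hd hm z1 (hf _ z1).1 z2 (hf _ z1).2 (div_mul_cancel₀ z z3).symm)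
  rw [inv_inv, Pi.div_apply, id, e] at this
  exact this.hasDerivAt

lemma h_diff : DifferentiableOn ℂ h (ball 0 1) := fun _ hw =>
  (h_der hd hm h0 hf (by simpa using hw)).differentiableAt.differentiableWithinAt

omit hd hm h0 in
lemma h_maps : MapsTo h (ball 0 1) (ball 0 1) := fun w hw => by
  simpa using (hf w (by simpa using hw)).1

omit h0 in
lemma p_re (hw : ‖w‖ < 1) : 0 < (pp φ h w).re := by
  have := re_pos (key' hd hm hw (hf w hw).1 (hf w hw).2).1
  rw [pp, inv_re]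
  exact div_pos this (normSq_pos.2 fun h' => by simp [h'] at this)

lemma p_diff : DifferentiableOn ℂ (pp φ h) (ball 0 1) :=
  ((differentiableOn_id.mul ((hd.deriv isOpen_ball).comp (h_diff hd hm h0 hf)
    (h_maps hf))).const_sub 1).inv fun w hw h' => by
      have := p_re hd hm hf (w := w) (by simpa using hw)
      rw [pp, show 1 - w * deriv φ (h w) = 0 from h'] at this
      simp at this

lemma p_int : ∃ C, ∀ r, 1 / 2 < r → r < 1 →
    ∫ t in (0 : ℝ)..2 * π, ‖pp φ h (circleMap 0 r t)‖ ≤ C := by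
  obtain ⟨c, c0, hc⟩ := u_ge hd h0 hf
  refine ⟨2 * π + 2 / c * (2 * (2 * π + 1) + 1), fun r r0 r1 => ?_⟩
  have r2 : 0 < r := by linarith
  have n1 : ∀ t, ‖circleMap 0 r t‖ = r := fun t => by simp [abs_of_pos r2]
  have n2 : ∀ t, ‖circleMap 0 r t‖ < 1 := fun t => (n1 t).trans_lt r1
  set q := fun t => pp φ h (circleMap 0 r t) with hq
  set H := fun t => h (circleMap 0 r t) with hH
  have qc : Continuous q := (p_diff hd hm h0 hf).continuousOn.comp_continuous
    (continuous_circleMap 0 r) fun t => by simpa using n2 t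
  set P := fun t => ∫ t in (0 : ℝ)..t, q t with hP
  have dP : ∀ t, HasDerivAt P (q t) t := fun t => (qc.integral_hasStrictDerivAt 0 t).hasDerivAt
  have dH : ∀ t, HasDerivAt H (I * q t * H t) t := fun t =>
    ((h_der hd hm h0 hf (n2 t)).comp t (hasDerivAt_circleMap 0 r t)).congr_deriv (by
      simp only [hq, hH]
      linear_combination (-I * pp φ h (circleMap 0 r t)) * (hf _ (n2 t)).2)
  have eH : ∀ t, H t = H 0 * Complex.exp (I * P t) := fun t => by
    have d : ∀ t, HasDerivAt (fun t => H t * Complex.exp (-(I * P t))) 0 t := fun t =>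
      ((dH t).mul ((dP t).const_mul I).neg.cexp).congr_deriv (by
        simp only [Pi.neg_apply]
        ring)
    have := is_const_of_deriv_eq_zero (fun t => (d t).differentiableAt) (fun t => (d t).deriv) t 0
    simp only [hP, intervalIntegral.integral_same, mul_zero, neg_zero, Complex.exp_zero,
      mul_one] at this
    rw [← this, mul_assoc, ← Complex.exp_add, neg_add_cancel, Complex.exp_zero, mul_one]
  have eN : ∀ t, ‖H 0‖ * Real.exp (-(P t).im) = ‖H t‖ := fun t => by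
    rw [eH t, norm_mul, norm_exp]
    simp
  have nH : ∀ t, ‖H t‖ = r * ‖φ (H t)‖ := fun t => by
    rw [← n1 t, ← norm_mul, ← (hf _ (n2 t)).2]
  have lH : ∀ t, c / 2 ≤ ‖H t‖ := fun t => by
    rw [nH]
    nlinarith [hc _ (n2 t)]
  have uH : ∀ t, ‖H t‖ < 1 := fun t => (hf _ (n2 t)).1
  have ds : ∀ t, HasDerivAt (fun t => ‖H t‖) (-(q t).im * ‖H t‖) t := fun t => by
    have := ((imCLM.hasFDerivAt.comp_hasDerivAt t (dP t)).neg.exp.const_mul ‖H 0‖)
    simp only [Pi.neg_apply, Function.comp_apply, imCLM_apply, eN] at this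
    refine this.congr_deriv ?_
    rw [← eN t]
    ring
  have dA : ∀ t, HasDerivAt (fun t => (P t).re) (q t).re t := fun t =>
    reCLM.hasFDerivAt.comp_hasDerivAt t (dP t)
  have vc : Continuous fun t => -(q t).im * ‖H t‖ := (continuous_im.comp qc).neg.mul
    (continuous_iff_continuousAt.2 fun t => (ds t).continuousAt)
  have b := bv ds dA vc (fun t => p_re hd hm hf (n2 t)) (fun _ => norm_nonneg _)
    (fun t => (uH t).le) (by simp [hP]) (fun t₀ t hv hA => by
      have p0 : 0 < ‖H t₀‖ := (half_pos c0).trans_le (lH t₀)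
      obtain ⟨k1, k2⟩ := key' hd hm (n2 t₀) (uH t₀) (hf _ (n2 t₀)).2
      have k3 := k2 (by
        have h1 : (q t₀).im = 0 := by simpa [norm_pos_iff.1 p0] using hv
        simp only [hq, pp] at h1
        rw [inv_im, div_eq_zero_iff, normSq_eq_zero] at h1
        rcases h1 with h1 | h1
        · simpa using h1
        · exact (congrArg im (sub_eq_zero.1 h1)).symm) (H t) (uH t) (by rw [norm_mul, n1, ← nH])
      refine klein p0 (uH t₀).le (norm_nonneg _) (uH t).le (sub_nonneg.2 hA) (le_of_eq_of_le ?_ k3)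
      rw [← eN t₀, ← eN t, eH t₀, eH t, map_mul, mul_mul_mul_comm _ _ (H 0), conj_mul',
        ← Complex.exp_conj, ← Complex.exp_add, ← ofReal_pow, re_ofReal_mul, exp_re,
        mul_mul_mul_comm _ _ ‖H 0‖, ← Real.exp_add, ← sq, mul_assoc]
      simp [sub_eq_neg_add]) two_pi_pos.le
  have a2 : (P (2 * π)).re = 2 * π := by
    have := mvp r2.le r1 (p_diff hd hm h0 hf)
    rw [circleAverage_def, smul_eq_mul, inv_mul_eq_iff_eq_mul₀ two_pi_pos.ne'] at this
    rw [← sub_zero (P _).re, show (0 : ℝ) = (P 0).re by simp [hP],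
      ← intervalIntegral.integral_eq_sub_of_hasDerivAt (fun t _ => dA t)
      ((continuous_re.comp qc).intervalIntegrable _ _), this]
    simp [pp]
  have mc := vc.max (continuous_const (y := (0 : ℝ)))
  have dM := fun t => (dA t).add (((((mc.integral_hasStrictDerivAt 0 t).hasDerivAt).const_mul 2).sub
    (ds t)).const_mul (2 / c))
  have gc := (continuous_re.comp qc).add (((mc.const_mul 2).sub vc).const_mul (2 / c))
  refine (intervalIntegral.integral_mono_on two_pi_pos.le (qc.norm.intervalIntegrable _ _)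
    (gc.intervalIntegrable _ _) fun t _ => ?_).trans ?_
  · have e : 2 * max (-(q t).im * ‖H t‖) 0 - -(q t).im * ‖H t‖ = |(q t).im| * ‖H t‖ := by
      rw [← abs_neg, ← abs_of_nonneg (norm_nonneg (H t)), ← abs_mul, abs_norm]
      rcases le_total (-(q t).im * ‖H t‖) 0 with h | h
      · rw [max_eq_right h, abs_of_nonpos h]
        ring
      · rw [max_eq_left h, abs_of_nonneg h]
        ring
    have e1 := norm_le_abs_re_add_abs_im (q t)
    rw [abs_of_pos (p_re hd hm hf (n2 t))] at e1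
    simp only [Pi.add_apply, Pi.sub_apply, Function.comp_apply, e]
    refine e1.trans (add_le_add_right ?_ _)
    rw [div_mul_eq_mul_div, le_div_iff₀ c0]
    nlinarith [mul_le_mul_of_nonneg_left (lH t) (abs_nonneg (q t).im)]
  · refine (intervalIntegral.integral_eq_sub_of_hasDerivAt (fun t _ => dM t)
      (gc.intervalIntegrable _ _)).trans_le ?_
    simp only [Pi.add_apply, Pi.sub_apply, a2, intervalIntegral.integral_same] at b ⊢
    have : (P 0).re = 0 := by simp [hP]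
    have := mul_le_mul_of_nonneg_left (show 2 * (∫ t in (0 : ℝ)..2 * π,
      max (-(q t).im * ‖H t‖) 0) - ‖H (2 * π)‖ - (2 * 0 - ‖H 0‖) ≤ 2 * (2 * π + 1) + 1 by
        linarith [norm_nonneg (H (2 * π)), uH 0]) (show 0 ≤ 2 / c by positivity)
    linarith

lemma main (j k : ℕ) : Tendsto (fun n => co (fun z => φ z ^ (n + j)) (n + k)) atTop (𝓝 0) := by
  obtain ⟨c, c0, hc⟩ := u_ge hd h0 hf
  obtain ⟨C, hC⟩ := p_int hd hm h0 hf
  have dh := h_diff hd hm h0 hf
  have dp := p_diff hd hm h0 hf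
  have du := hd.comp dh (h_maps hf)
  have n0 : ∀ w ∈ ball (0 : ℂ) 1, φ (h w) ≠ 0 := fun w hw => u_ne hd h0 hf (by simpa using hw)
  have dq : DifferentiableOn ℂ (fun w => pp φ h w ^ (2⁻¹ : ℂ)) (ball 0 1) :=
    dp.cpow_const fun w hw => Or.inl (p_re hd hm hf (by simpa using hw))
  have dq1 : DifferentiableOn ℂ (fun w => φ (h w) ^ j / φ (h w) ^ k * pp φ h w ^ (2⁻¹ : ℂ))
      (ball 0 1) := ((du.pow j).div (du.pow k) fun w hw => pow_ne_zero _ (n0 w hw)).mul dq
  have sq : ∀ x : ℂ, ‖x ^ (2⁻¹ : ℂ)‖ ^ 2 = ‖x‖ := fun x => by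
    rw [← norm_pow, Complex.cpow_ofNat_inv_pow]
  have c1 : c ≤ 1 := (hc 0 (by simp)).trans (hm _ (hf 0 (by simp)).1).le
  have C0 : 0 ≤ C := le_trans (intervalIntegral.integral_nonneg two_pi_pos.le
    fun _ _ => norm_nonneg _) (hC (3 / 4) (by norm_num) (by norm_num))
  have k1 : 1 ≤ (c ^ k)⁻¹ ^ 2 := one_le_pow₀ ((one_le_inv₀ (by positivity)).2 (pow_le_one₀ c0.le c1))
  have := rl dq1 dq (M := (c ^ k)⁻¹ ^ 2 * C) (fun r r0 r1 => by
    have n2 : ∀ t, circleMap 0 r t ∈ ball 0 1 := fun t => by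
      simpa [abs_of_pos (show 0 < r by linarith)] using r1
    refine (intervalIntegral.integral_mono_on two_pi_pos.le
      (((dq1.continuousOn.comp_continuous (continuous_circleMap 0 r) n2).norm.pow
        2).intervalIntegrable _ _) (((dp.continuousOn.comp_continuous (continuous_circleMap 0 r)
        n2).norm.const_mul ((c ^ k)⁻¹ ^ 2)).intervalIntegrable _ _) fun t _ => ?_).trans ?_
    · have n3 : ‖circleMap 0 r t‖ < 1 := by simpa only [mem_ball_zero_iff] using n2 t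
      simp only [Function.comp_apply, Pi.pow_apply, norm_mul, mul_pow, sq, norm_div, norm_pow]
      have := hc _ n3
      have := pow_le_one₀ (n := j) (norm_nonneg _) (hm _ (hf _ n3).1).le
      rw [inv_eq_one_div]
      gcongr
    · rw [intervalIntegral.integral_const_mul]
      exact mul_le_mul_of_nonneg_left (hC r r0 r1) (by positivity)) fun r r0 r1 => by
    simp only [sq]
    exact (hC r r0 r1).trans (le_mul_of_one_le_left C0 k1)
  refine (this.comp (tendsto_add_atTop_nat k)).congr fun n => ?_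
  have h2 : (0 : ℝ) < 1 / 2 := by norm_num
  have h3 : (1 / 2 : ℝ) < 1 := by norm_num
  have hn : ∀ w, ‖w‖ = 1 / 2 → h w ≠ 0 := fun w hw => by
    rw [(hf w (hw ▸ h3)).2]
    exact mul_ne_zero (norm_pos_iff.1 (hw ▸ h2)) (u_ne hd h0 hf (hw ▸ h3))
  have l := lag h2 h3 dh (h_maps hf) (by simpa using (hf 0 (by simp)).2) hn dp (by simp [pp])
    (fun w hw => by
      rw [(h_der hd hm h0 hf (hw ▸ h3)).deriv, ← mul_assoc, ← (hf w (hw ▸ h3)).2]) (n + k)
    (hd.pow (n + j))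
  refine mul_left_cancel₀ two_pi_I_ne_zero ?_
  rw [Function.comp_apply, ← co_int h2 h3 (dq1.mul dq)]
  refine (circleIntegral.integral_congr h2.le fun w hw => ?_).trans l
  have hw' : ‖w‖ = 1 / 2 := by simpa using hw
  have w0 : w ≠ 0 := norm_pos_iff.1 (hw' ▸ h2)
  have u0 := u_ne hd h0 hf (hw' ▸ h3)
  simp only [Pi.mul_apply, Pi.pow_apply]
  rw [(h_der hd hm h0 hf (hw' ▸ h3)).deriv, mul_assoc, ← pow_two, Complex.cpow_ofNat_inv_pow]
  nth_rewrite 5 [(hf w (hw' ▸ h3)).2]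
  rw [mul_pow]
  field_simp
  ring

end

end Pool.Agent.H.MP_ffb813_an
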